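import Pool.Agent.H89.Kap.Geo

/-!
# Kaplansky's line game with bias: lines, the finite family and potentials
-/

set_option autoImplicit false

open Finset

namespace Pool.Agent.H89.KapG

open Pool.Agent.H89.Kap

open Classical in
/-- The lattice points of the line through `p` and `q`. -/
def ln (p q : ℤ × ℤ) : Set (ℤ × ℤ) := {z | D p q z = 0}

/-- `L` is the set of lattice points of a line through two lattice points. -/
def IsLn (L : Set (ℤ × ℤ)) : Prop := ∃ p q : ℤ × ℤ, p ≠ q ∧ L = ln p q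

lemma line_iff (P Q z : ℤ × ℤ) :
    (-(Q.2 - P.2)) * z.1 + (Q.1 - P.1) * z.2 = (-(Q.2 - P.2)) * P.1 + (Q.1 - P.1) * P.2
      ↔ D P Q z = 0 := by
  simp only [D]
  constructor <;> intro h <;> linarith

lemma line_ne {P Q : ℤ × ℤ} (h : P ≠ Q) : -(Q.2 - P.2) ≠ 0 ∨ Q.1 - P.1 ≠ 0 := by
  by_contra hc
  push Not at hc
  exact h (Prod.ext (by linarith [hc.2]) (by linarith [hc.1]))

lemma IsLn.eq {L : Set (ℤ × ℤ)} (hL : IsLn L) {z w : ℤ × ℤ} (hzw : z ≠ w) (hz : z ∈ L)
    (hw : w ∈ L) : L = ln z w := by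
  obtain ⟨p, q, hpq, rfl⟩ := hL
  ext v
  change D p q v = 0 ↔ D z w v = 0
  rw [← line_iff p q v]
  exact on_iff (line_ne hpq) hzw ((line_iff p q z).mpr hz) ((line_iff p q w).mpr hw) v

lemma IsLn.unique {L L' : Set (ℤ × ℤ)} (hL : IsLn L) (hL' : IsLn L') {z w : ℤ × ℤ} (hzw : z ≠ w)
    (hz : z ∈ L) (hw : w ∈ L) (hz' : z ∈ L') (hw' : w ∈ L') : L = L' := by
  rw [hL.eq hzw hz hw, hL'.eq hzw hz' hw']

lemma isLn_ln {p q : ℤ × ℤ} (h : p ≠ q) : IsLn (ln p q) := ⟨p, q, h, rfl⟩

lemma left_mem_ln (p q : ℤ × ℤ) : p ∈ ln p q := D_self1 p q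

lemma right_mem_ln (p q : ℤ × ℤ) : q ∈ ln p q := D_self2 p q

/-- The line `y = α x + β`. -/
def el (e : ℕ × ℕ) : Set (ℤ × ℤ) := {z | z.2 = e.1 * z.1 + e.2}

lemma isLn_el (e : ℕ × ℕ) : IsLn (el e) := by
  refine ⟨(0, (e.2 : ℤ)), (1, (e.1 : ℤ) + e.2), ?_, ?_⟩
  · intro h
    have := congrArg Prod.fst h
    simp at this
  · ext z
    change z.2 = e.1 * z.1 + e.2 ↔ D _ _ z = 0
    simp only [D]
    constructor <;> intro h <;> linarith

lemma el_inj : Function.Injective el := by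
  intro e e' h
  have h0 : ((0 : ℤ), (e.2 : ℤ)) ∈ el e' := by
    rw [← h]; change (e.2 : ℤ) = e.1 * 0 + e.2; ring
  have h1 : ((1 : ℤ), (e.1 : ℤ) + e.2) ∈ el e' := by
    rw [← h]; change (e.1 : ℤ) + e.2 = e.1 * 1 + e.2; ring
  change (e.2 : ℤ) = e'.1 * 0 + e'.2 at h0
  change (e.1 : ℤ) + e.2 = e'.1 * 1 + e'.2 at h1
  have a : (e.2 : ℤ) = e'.2 := by linarith
  have b : (e.1 : ℤ) = e'.1 := by linarith
  exact Prod.ext (by exact_mod_cast b) (by exact_mod_cast a)

open Classical in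
/-- The family of lines `y = α x + β`, `α < A`, `β < N`. -/
noncomputable def fam (A N : ℕ) : Finset (Set (ℤ × ℤ)) := ((range A) ×ˢ (range N)).image el

lemma card_fam (A N : ℕ) : (fam A N).card = A * N := by
  classical
  unfold fam
  rw [card_image_of_injective _ el_inj, card_product, card_range, card_range]

lemma isLn_fam {A N : ℕ} {L : Set (ℤ × ℤ)} (h : L ∈ fam A N) : IsLn L := by
  classical
  unfold fam at h
  obtain ⟨e, _, rfl⟩ := mem_image.mp h
  exact isLn_el e

open Classical in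
lemma card_fam_through (A N : ℕ) (v : ℤ × ℤ) :
    ((fam A N).filter (fun L => v ∈ L)).card ≤ A := by
  have : (fam A N).filter (fun L => v ∈ L) ⊆
      (range A).image (fun α : ℕ => ({z | z.2 = α * (z.1 - v.1) + v.2} : Set (ℤ × ℤ))) := by
    intro L hL
    obtain ⟨hL, hv⟩ := mem_filter.mp hL
    unfold fam at hL
    obtain ⟨e, he, rfl⟩ := mem_image.mp hL
    refine mem_image.mpr ⟨e.1, (mem_product.mp he).1, ?_⟩
    change v.2 = e.1 * v.1 + e.2 at hv
    ext z
    change z.2 = e.1 * (z.1 - v.1) + v.2 ↔ z.2 = e.1 * z.1 + e.2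
    rw [hv]
    constructor <;> intro h <;> linarith
  calc _ ≤ _ := card_le_card this
    _ ≤ (range A).card := card_image_le
    _ = A := card_range A

/-- The points `(x, y)` with `0 ≤ x < K`, `0 ≤ y < M`. -/
def box (K M : ℕ) : Finset (ℤ × ℤ) :=
  ((range K) ×ˢ (range M)).image (fun e : ℕ × ℕ => ((e.1 : ℤ), (e.2 : ℤ)))

lemma card_box (K M : ℕ) : (box K M).card ≤ K * M := by
  unfold box
  refine card_image_le.trans ?_
  rw [card_product, card_range, card_range]

open Classical in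
lemma card_box_line {A N K M : ℕ} (hM : N + A * K ≤ M) {L : Set (ℤ × ℤ)} (hL : L ∈ fam A N) :
    K ≤ ((box K M).filter (fun z => z ∈ L)).card := by
  unfold fam at hL
  obtain ⟨e, he, rfl⟩ := mem_image.mp hL
  obtain ⟨h1, h2⟩ := mem_product.mp he
  rw [mem_range] at h1 h2
  have hinj : Function.Injective (fun x : ℕ => ((x : ℤ), ((e.1 * x + e.2 : ℕ) : ℤ))) := by
    intro x y h
    have := congrArg Prod.fst h
    simpa using this
  have hsub : (range K).image (fun x : ℕ => ((x : ℤ), ((e.1 * x + e.2 : ℕ) : ℤ))) ⊆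
      (box K M).filter (fun z => z ∈ el e) := by
    intro z hz
    obtain ⟨x, hx, rfl⟩ := mem_image.mp hz
    rw [mem_range] at hx
    refine mem_filter.mpr ⟨?_, ?_⟩
    · unfold box
      refine mem_image.mpr ⟨(x, e.1 * x + e.2), ?_, rfl⟩
      refine mem_product.mpr ⟨mem_range.mpr hx, mem_range.mpr ?_⟩
      change e.1 * x + e.2 < M
      have : e.1 * x ≤ A * K := Nat.mul_le_mul h1.le hx.le
      omega
    · change ((e.1 * x + e.2 : ℕ) : ℤ) = e.1 * (x : ℤ) + e.2
      push_cast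
      ring
  calc K = (range K).card := (card_range K).symm
    _ = _ := (card_image_of_injective _ hinj).symm
    _ ≤ _ := card_le_card hsub

/-- A line has infinitely many lattice points. -/
lemma IsLn.exists_fresh {L : Set (ℤ × ℤ)} (hL : IsLn L) (A : Finset (ℤ × ℤ)) :
    ∃ q ∈ L, q ∉ A := by
  obtain ⟨p, q, hpq, rfl⟩ := hL
  by_contra hc
  push Not at hc
  have hinj : Function.Injective (fun m : ℤ => pt p q m) := by
    intro m m' h
    have h1 := congrArg Prod.fst h
    have h2 := congrArg Prod.snd h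
    simp only [pt] at h1 h2
    have e1 : (m - m') * (q.1 - p.1) = 0 := by linarith
    have e2 : (m - m') * (q.2 - p.2) = 0 := by linarith
    rcases mul_eq_zero.mp e1 with h' | h'
    · linarith
    · rcases mul_eq_zero.mp e2 with h'' | h''
      · linarith
      · exact absurd (Prod.ext (by linarith) (by linarith)) hpq
  have hsub : Set.range (fun m : ℤ => pt p q m) ⊆ (A : Set (ℤ × ℤ)) := by
    rintro _ ⟨m, rfl⟩
    refine Finset.mem_coe.mpr (hc _ ?_)
    change D p q (pt p q m) = 0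
    simp only [D, pt]; ring
  exact (Set.infinite_range_of_injective hinj) (A.finite_toSet.subset hsub)

open Classical in
/-- The lines through at least two points of `S`. -/
noncomputable def lns (S : Finset (ℤ × ℤ)) : Finset (Set (ℤ × ℤ)) :=
  S.offDiag.image (fun e => ln e.1 e.2)

lemma mem_lns {S : Finset (ℤ × ℤ)} {L : Set (ℤ × ℤ)} :
    L ∈ lns S ↔ IsLn L ∧ ∃ s ∈ S, ∃ s' ∈ S, s ≠ s' ∧ s ∈ L ∧ s' ∈ L := by
  classical
  unfold lns
  rw [mem_image]
  constructor
  · rintro ⟨e, he, rfl⟩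
    rw [mem_offDiag] at he
    exact ⟨isLn_ln he.2.2, e.1, he.1, e.2, he.2.1, he.2.2, left_mem_ln _ _, right_mem_ln _ _⟩
  · rintro ⟨hL, s, hs, s', hs', hne, h1, h2⟩
    exact ⟨(s, s'), mem_offDiag.mpr ⟨hs, hs', hne⟩, (hL.eq hne h1 h2).symm⟩

open Classical in
/-- The weight of the line `L` for a player with stones `F` against stones `S`. -/
noncomputable def u (c : ℝ) (F S : Finset (ℤ × ℤ)) (L : Set (ℤ × ℤ)) : ℝ :=
  if ∀ s ∈ S, s ∉ L then c ^ (F.filter (fun z => z ∈ L)).card else 0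

/-- The potential. -/
noncomputable def Phi (c : ℝ) (E : Finset (Set (ℤ × ℤ))) (F S : Finset (ℤ × ℤ)) : ℝ :=
  ∑ L ∈ E, u c F S L

open Classical in
/-- The potential of a point. -/
noncomputable def phi (c : ℝ) (E : Finset (Set (ℤ × ℤ))) (F S : Finset (ℤ × ℤ)) (v : ℤ × ℤ) : ℝ :=
  ∑ L ∈ E, if v ∈ L then u c F S L else 0

lemma u_nonneg {c : ℝ} (hc : 0 ≤ c) (F S : Finset (ℤ × ℤ)) (L : Set (ℤ × ℤ)) : 0 ≤ u c F S L := by
  unfold u
  split_ifs
  · positivity
  · exact le_refl _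

lemma phi_nonneg {c : ℝ} (hc : 0 ≤ c) (E : Finset (Set (ℤ × ℤ))) (F S : Finset (ℤ × ℤ))
    (v : ℤ × ℤ) : 0 ≤ phi c E F S v := by
  unfold phi
  refine sum_nonneg fun L _ => ?_
  split_ifs
  · exact u_nonneg hc F S L
  · exact le_refl _

open Classical in
lemma u_insert {c : ℝ} {F S : Finset (ℤ × ℤ)} {x : ℤ × ℤ} (hx : x ∉ F) (L : Set (ℤ × ℤ)) :
    u c (insert x F) S L = u c F S L + (c - 1) * (if x ∈ L then u c F S L else 0) := by
  unfold u
  rw [filter_insert]
  by_cases hS : ∀ s ∈ S, s ∉ L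
  · simp only [if_pos hS]
    by_cases hxL : x ∈ L
    · rw [if_pos hxL, if_pos hxL, card_insert_of_notMem (fun h => hx (mem_filter.mp h).1)]
      ring
    · rw [if_neg hxL, if_neg hxL]
      ring
  · simp only [if_neg hS]
    simp

open Classical in
lemma u_union {c : ℝ} (hc : 0 ≤ c) (F S Y : Finset (ℤ × ℤ)) (L : Set (ℤ × ℤ)) :
    u c F S L - ∑ y ∈ Y, (if y ∈ L then u c F S L else 0) ≤ u c F (S ∪ Y) L := by
  by_cases hY : ∀ y ∈ Y, y ∉ L
  · have h0 : ∑ y ∈ Y, (if y ∈ L then u c F S L else 0) = 0 :=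
      sum_eq_zero fun y hy => if_neg (hY y hy)
    rw [h0, sub_zero]
    unfold u
    by_cases hS : ∀ s ∈ S, s ∉ L
    · rw [if_pos hS, if_pos]
      intro s hs
      rcases mem_union.mp hs with h | h
      · exact hS s h
      · exact hY s h
    · rw [if_neg hS]
      split_ifs
      · positivity
      · exact le_refl _
  · push Not at hY
    obtain ⟨y, hy, hyL⟩ := hY
    have h1 : u c F S L ≤ ∑ y ∈ Y, (if y ∈ L then u c F S L else 0) := by
      calc u c F S L = (if y ∈ L then u c F S L else 0) := (if_pos hyL).symm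
        _ ≤ _ := single_le_sum (f := fun y => if y ∈ L then u c F S L else 0)
            (fun z _ => by
              change 0 ≤ (if z ∈ L then u c F S L else 0)
              split_ifs
              · exact u_nonneg hc F S L
              · exact le_refl _) hy
    have h2 := u_nonneg hc F (S ∪ Y) L
    linarith

end Pool.Agent.H89.KapG
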