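import Pool.Agent.H89.KapG.Lines

/-!
# Kaplansky's line game with bias: one round of the game and the two potentials
-/

set_option autoImplicit false

open Finset

namespace Pool.Agent.H89.KapG

open Pool.Agent.H89.Kap

lemma Phi_insert {c : ℝ} {E : Finset (Set (ℤ × ℤ))} {F S : Finset (ℤ × ℤ)} {x : ℤ × ℤ}
    (hx : x ∉ F) : Phi c E (insert x F) S = Phi c E F S + (c - 1) * phi c E F S x := by
  unfold Phi phi
  rw [mul_sum, ← sum_add_distrib]
  exact sum_congr rfl fun L _ => u_insert hx L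

open Classical in
lemma cross {c W : ℝ} (hW : 0 ≤ W) {E : Finset (Set (ℤ × ℤ))}
    (hE : ∀ L ∈ E, IsLn L) {F S : Finset (ℤ × ℤ)} (hu : ∀ L ∈ E, u c F S L ≤ W) {x y : ℤ × ℤ}
    (hxy : x ≠ y) :
    ∑ L ∈ E, (if y ∈ L then (if x ∈ L then u c F S L else 0) else 0) ≤ W := by
  by_cases h : ∃ L ∈ E, x ∈ L ∧ y ∈ L
  · obtain ⟨L0, hL0, hx0, hy0⟩ := h
    rw [sum_eq_single L0]
    · rw [if_pos hy0, if_pos hx0]; exact hu L0 hL0
    · intro L hL hne
      by_cases hy : y ∈ L
      · by_cases hx : x ∈ L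
        · exact absurd ((hE L hL).unique (hE L0 hL0) hxy hx hy hx0 hy0) hne
        · rw [if_pos hy, if_neg hx]
      · rw [if_neg hy]
    · intro hn; exact absurd hL0 hn
  · push Not at h
    rw [sum_eq_zero]
    · exact hW
    · intro L hL
      by_cases hy : y ∈ L
      · by_cases hx : x ∈ L
        · exact absurd hy (h L hL hx)
        · rw [if_pos hy, if_neg hx]
      · rw [if_neg hy]

/-- One round for the first potential. -/
lemma round1 {c W : ℝ} (hc : 1 ≤ c) (hW : 0 ≤ W) {E : Finset (Set (ℤ × ℤ))}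
    (hE : ∀ L ∈ E, IsLn L) {F S Y : Finset (ℤ × ℤ)} {x : ℤ × ℤ} (hxF : x ∉ F) (hxY : x ∉ Y)
    (hu : ∀ L ∈ E, u c F S L ≤ W) :
    Phi c E F S + (c - 1) * phi c E F S x - ∑ y ∈ Y, phi c E F S y - (c - 1) * (Y.card * W)
      ≤ Phi c E (insert x F) (S ∪ Y) := by
  classical
  have hc0 : 0 ≤ c := by linarith
  have h1 : Phi c E (insert x F) S - ∑ y ∈ Y, phi c E (insert x F) S y
      ≤ Phi c E (insert x F) (S ∪ Y) := by
    unfold Phi phi
    rw [sum_comm, ← sum_sub_distrib]
    exact sum_le_sum fun L _ => u_union hc0 (insert x F) S Y L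
  have h2 : ∀ y ∈ Y, phi c E (insert x F) S y ≤ phi c E F S y + (c - 1) * W := by
    intro y hy
    have hxy : x ≠ y := fun h => hxY (h ▸ hy)
    have h3 : phi c E (insert x F) S y = phi c E F S y + (c - 1) *
        ∑ L ∈ E, (if y ∈ L then (if x ∈ L then u c F S L else 0) else 0) := by
      unfold phi
      rw [mul_sum, ← sum_add_distrib]
      refine sum_congr rfl fun L _ => ?_
      by_cases hyL : y ∈ L
      · rw [if_pos hyL, if_pos hyL, if_pos hyL, u_insert hxF]
      · rw [if_neg hyL, if_neg hyL, if_neg hyL]; ring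
    rw [h3]
    have := cross hW hE hu hxy
    have h4 : 0 ≤ c - 1 := by linarith
    nlinarith
  have h5 : ∑ y ∈ Y, phi c E (insert x F) S y ≤ ∑ y ∈ Y, phi c E F S y + Y.card * ((c - 1) * W) := by
    calc _ ≤ ∑ y ∈ Y, (phi c E F S y + (c - 1) * W) := sum_le_sum h2
      _ = _ := by rw [sum_add_distrib, sum_const, nsmul_eq_mul]
  rw [Phi_insert hxF] at h1
  linarith [mul_comm (Y.card : ℝ) ((c - 1) * W), mul_left_comm (c - 1) (Y.card : ℝ) W]

lemma pow_aux {d : ℝ} (hd : 1 ≤ d) (b : ℕ) : ∀ j : ℕ, j ≤ b → d ^ j - 1 ≤ j * (d ^ b * (d - 1))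
  | 0, _ => by simp
  | j + 1, hj => by
      have ih := pow_aux hd b j (by omega)
      have h1 : d ^ j ≤ d ^ b := pow_le_pow_right₀ hd (by omega)
      have h2 : 0 ≤ d - 1 := by linarith
      have h3 := mul_le_mul_of_nonneg_right h1 h2
      push_cast
      rw [pow_succ]
      nlinarith

lemma pow_conv {d : ℝ} (hd : 1 ≤ d) (j : ℕ) : ∀ b : ℕ, j ≤ b →
    (b : ℝ) * (d ^ j - 1) ≤ j * (d ^ b - 1) := by
  intro b hb
  induction b, hb using Nat.le_induction with
  | base => exact le_refl _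
  | succ b hb ih =>
      have h1 := pow_aux hd b j hb
      push_cast
      rw [pow_succ]
      nlinarith

open Classical in
/-- The contribution of an old line to the second potential in one round. -/
lemma old_line {d θ : ℝ} (hd : 1 ≤ d) {b : ℕ} (hb : 1 ≤ b) (hθ : d ^ b = 1 + θ)
    {F S Y : Finset (ℤ × ℤ)} {x : ℤ × ℤ} (hcard : Y.card = b) (hSY : Disjoint S Y)
    (L : Set (ℤ × ℤ)) :
    u d (S ∪ Y) (insert x F) L ≤ u d S F L - (if x ∈ L then u d S F L else 0)
      + (θ / b) * ∑ y ∈ Y, (if y ∈ L then u d S F L else 0) := by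
  have hd0 : 0 ≤ d := by linarith
  have hb0 : (0 : ℝ) < b := by exact_mod_cast hb
  have hθ0 : 0 ≤ θ := by
    have : (1 : ℝ) ≤ d ^ b := one_le_pow₀ hd
    linarith
  have hsum : ∑ y ∈ Y, (if y ∈ L then u d S F L else 0)
      = ((Y.filter (fun z => z ∈ L)).card : ℝ) * u d S F L := by
    rw [← sum_filter, sum_const, nsmul_eq_mul]
  have hnn := u_nonneg hd0 S F L
  rw [hsum]
  by_cases hx : x ∈ L
  · have h0 : u d (S ∪ Y) (insert x F) L = 0 := by
      unfold u
      rw [if_neg]
      push Not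
      exact ⟨x, mem_insert_self x F, hx⟩
    rw [h0, if_pos hx]
    have : 0 ≤ θ / b * (((Y.filter (fun z => z ∈ L)).card : ℝ) * u d S F L) := by positivity
    linarith
  · rw [if_neg hx, sub_zero]
    by_cases hF : ∀ s ∈ F, s ∉ L
    · have h1 : u d S F L = d ^ (S.filter (fun z => z ∈ L)).card := by
        unfold u; rw [if_pos hF]
      have h2 : u d (S ∪ Y) (insert x F) L
          = d ^ (S.filter (fun z => z ∈ L)).card * d ^ (Y.filter (fun z => z ∈ L)).card := by
        unfold u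
        rw [if_pos, filter_union, card_union_of_disjoint, pow_add]
        · exact disjoint_filter_filter hSY
        · intro s hs
          rcases mem_insert.mp hs with rfl | hs
          · exact hx
          · exact hF s hs
      have h3 : (Y.filter (fun z => z ∈ L)).card ≤ b := hcard ▸ card_filter_le _ _
      have h4 := pow_conv hd (Y.filter (fun z => z ∈ L)).card b h3
      rw [h1, h2]
      set m := (S.filter (fun z => z ∈ L)).card
      set j := (Y.filter (fun z => z ∈ L)).card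
      have h5 : d ^ j ≤ 1 + θ / b * j := by
        have : d ^ j - 1 ≤ (j * (d ^ b - 1)) / b := by
          rw [le_div_iff₀ hb0]; linarith
        rw [hθ] at this
        have e : (j * (1 + θ - 1)) / b = θ / b * j := by ring
        linarith [e ▸ this]
      have h6 : 0 ≤ d ^ m := by positivity
      nlinarith
    · have h1 : u d S F L = 0 := by unfold u; rw [if_neg hF]
      have h2 : u d (S ∪ Y) (insert x F) L = 0 := by
        unfold u
        rw [if_neg]
        push Not at hF ⊢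
        obtain ⟨s, hs, hsL⟩ := hF
        exact ⟨s, mem_insert_of_mem hs, hsL⟩
      rw [h1, h2]
      simp

lemma card_inter_le_one {S : Finset (ℤ × ℤ)} {L : Set (ℤ × ℤ)} (hL : IsLn L) (h : L ∉ lns S) :
    open Classical in (S.filter (fun z => z ∈ L)).card ≤ 1 := by
  classical
  by_contra hc
  push Not at hc
  obtain ⟨s, hs, s', hs', hne⟩ := one_lt_card.mp hc
  rw [mem_filter] at hs hs'
  exact h (mem_lns.mpr ⟨hL, s, hs.1, s', hs'.1, hne, hs.2, hs'.2⟩)

/-- One round for the second potential. -/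
lemma round2 {d θ : ℝ} (hd : 1 ≤ d) {b : ℕ} (hb : 1 ≤ b) (hθ : d ^ b = 1 + θ)
    {F S Y : Finset (ℤ × ℤ)} {x : ℤ × ℤ} (hcard : Y.card = b) (hSY : Disjoint S Y) :
    Phi d (lns (S ∪ Y)) (S ∪ Y) (insert x F) ≤ Phi d (lns S) S F - phi d (lns S) S F x
      + (θ / b) * ∑ y ∈ Y, phi d (lns S) S F y + (b * (S ∪ Y).card) * d ^ (b + 1) := by
  classical
  have hd0 : 0 ≤ d := by linarith
  have hsub : lns S ⊆ lns (S ∪ Y) := by
    intro L hL
    rw [mem_lns] at hL ⊢
    obtain ⟨h1, s, hs, s', hs', h⟩ := hL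
    exact ⟨h1, s, mem_union_left _ hs, s', mem_union_left _ hs', h⟩
  have hsplit : Phi d (lns (S ∪ Y)) (S ∪ Y) (insert x F)
      = ∑ L ∈ lns (S ∪ Y) \ lns S, u d (S ∪ Y) (insert x F) L
        + ∑ L ∈ lns S, u d (S ∪ Y) (insert x F) L := by
    unfold Phi
    rw [← sum_sdiff hsub]
  have hold : ∑ L ∈ lns S, u d (S ∪ Y) (insert x F) L ≤ Phi d (lns S) S F - phi d (lns S) S F x
      + (θ / b) * ∑ y ∈ Y, phi d (lns S) S F y := by
    unfold Phi phi
    rw [sum_comm, mul_sum, ← sum_sub_distrib, ← sum_add_distrib]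
    exact sum_le_sum fun L _ => old_line hd hb hθ hcard hSY L
  have hcardn : (lns (S ∪ Y) \ lns S).card ≤ b * (S ∪ Y).card := by
    have hs : lns (S ∪ Y) \ lns S ⊆ (Y ×ˢ (S ∪ Y)).image (fun e => ln e.1 e.2) := by
      intro L hL
      obtain ⟨h1, h2⟩ := mem_sdiff.mp hL
      obtain ⟨h0, s, hs, s', hs', hne, hsL, hsL'⟩ := mem_lns.mp h1
      rcases mem_union.mp hs with hS | hS
      · rcases mem_union.mp hs' with hS' | hS'
        · exact absurd (mem_lns.mpr ⟨h0, s, hS, s', hS', hne, hsL, hsL'⟩) h2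
        · exact mem_image.mpr ⟨(s', s), mem_product.mpr ⟨hS', hs⟩, (h0.eq hne.symm hsL' hsL).symm⟩
      · exact mem_image.mpr ⟨(s, s'), mem_product.mpr ⟨hS, hs'⟩, (h0.eq hne hsL hsL').symm⟩
    calc _ ≤ _ := card_le_card hs
      _ ≤ (Y ×ˢ (S ∪ Y)).card := card_image_le
      _ = b * (S ∪ Y).card := by rw [card_product, hcard]
  have hnew : ∑ L ∈ lns (S ∪ Y) \ lns S, u d (S ∪ Y) (insert x F) L
      ≤ (b * (S ∪ Y).card) * d ^ (b + 1) := by
    have h1 : ∀ L ∈ lns (S ∪ Y) \ lns S, u d (S ∪ Y) (insert x F) L ≤ d ^ (b + 1) := by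
      intro L hL
      obtain ⟨h1, h2⟩ := mem_sdiff.mp hL
      obtain ⟨h0, _⟩ := mem_lns.mp h1
      unfold u
      split_ifs
      · apply pow_le_pow_right₀ hd
        have a1 := card_inter_le_one h0 h2
        have a2 : (Y.filter (fun z => z ∈ L)).card ≤ b := hcard ▸ card_filter_le _ _
        rw [filter_union]
        have a3 := card_union_le (S.filter (fun z => z ∈ L)) (Y.filter (fun z => z ∈ L))
        omega
      · positivity
    calc _ ≤ (lns (S ∪ Y) \ lns S).card • d ^ (b + 1) := sum_le_card_nsmul _ _ _ h1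
      _ = ((lns (S ∪ Y) \ lns S).card : ℝ) * d ^ (b + 1) := nsmul_eq_mul _ _
      _ ≤ _ := by
          apply mul_le_mul_of_nonneg_right _ (by positivity)
          exact_mod_cast hcardn
  linarith

open Classical in
/-- Some free point of the box has at least the average potential. -/
lemma avg {c : ℝ} (hc : 0 ≤ c) {E : Finset (Set (ℤ × ℤ))} {V F S : Finset (ℤ × ℤ)} {K k : ℕ}
    (hV : ∀ L ∈ E, K ≤ (V.filter (fun z => z ∈ L)).card)
    (hF : ∀ L ∈ E, (∀ s ∈ S, s ∉ L) → (F.filter (fun z => z ∈ L)).card ≤ k) (hkK : k < K)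
    (hpos : 0 < Phi c E F S) :
    ∃ v, v ∉ F ∧ v ∉ S ∧ ((K : ℝ) - k) * Phi c E F S ≤ V.card * phi c E F S v := by
  by_contra hcon
  push Not at hcon
  set V' := V.filter (fun z => z ∉ F ∧ z ∉ S) with hV'
  have hkK' : (0 : ℝ) < (K : ℝ) - k := by
    have : (k : ℝ) < K := by exact_mod_cast hkK
    linarith
  -- double counting
  have h1 : ((K : ℝ) - k) * Phi c E F S ≤ ∑ v ∈ V', phi c E F S v := by
    unfold Phi phi
    rw [sum_comm, mul_sum]
    refine sum_le_sum fun L hL => ?_
    rw [← sum_filter, sum_const, nsmul_eq_mul]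
    by_cases hS : ∀ s ∈ S, s ∉ L
    · have hu := u_nonneg hc F S L
      have hcount : K ≤ (V'.filter (fun z => z ∈ L)).card + k := by
        have a1 := hV L hL
        have a2 := hF L hL hS
        have a3 : V.filter (fun z => z ∈ L) ⊆
            V'.filter (fun z => z ∈ L) ∪ F.filter (fun z => z ∈ L) := by
          intro z hz
          obtain ⟨z1, z2⟩ := mem_filter.mp hz
          by_cases hzF : z ∈ F
          · exact mem_union_right _ (mem_filter.mpr ⟨hzF, z2⟩)
          · refine mem_union_left _ (mem_filter.mpr ⟨?_, z2⟩)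
            rw [hV']
            exact mem_filter.mpr ⟨z1, hzF, fun h => hS z h z2⟩
        have a4 := card_le_card a3
        have a5 := card_union_le (V'.filter (fun z => z ∈ L)) (F.filter (fun z => z ∈ L))
        omega
      have hcount' : (K : ℝ) - k ≤ ((V'.filter (fun z => z ∈ L)).card : ℝ) := by
        have : (K : ℝ) ≤ ((V'.filter (fun z => z ∈ L)).card : ℝ) + k := by exact_mod_cast hcount
        linarith
      exact mul_le_mul_of_nonneg_right hcount' hu
    · have : u c F S L = 0 := by unfold u; rw [if_neg hS]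
      rw [this]; simp
  have h2 : 0 < ∑ v ∈ V', phi c E F S v := lt_of_lt_of_le (mul_pos hkK' hpos) h1
  have hne : V'.Nonempty := by
    by_contra hne
    rw [not_nonempty_iff_eq_empty] at hne
    rw [hne] at h2
    simp at h2
  have h3 : ∑ v ∈ V', (V.card : ℝ) * phi c E F S v
      < ∑ v ∈ V', ((K : ℝ) - k) * Phi c E F S := by
    refine sum_lt_sum_of_nonempty hne fun v hv => ?_
    rw [hV'] at hv
    obtain ⟨_, h4, h5⟩ := mem_filter.mp hv
    exact hcon v h4 h5
  rw [← mul_sum, sum_const, nsmul_eq_mul] at h3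
  have h4 : (V'.card : ℝ) ≤ V.card := by
    exact_mod_cast card_le_card (filter_subset _ _)
  have h5 : (V'.card : ℝ) * (((K : ℝ) - k) * Phi c E F S)
      ≤ V.card * (((K : ℝ) - k) * Phi c E F S) :=
    mul_le_mul_of_nonneg_right h4 (mul_pos hkK' hpos).le
  have h6 : (V.card : ℝ) * (((K : ℝ) - k) * Phi c E F S)
      ≤ V.card * ∑ v ∈ V', phi c E F S v :=
    mul_le_mul_of_nonneg_left h1 (by positivity)
  linarith

/-- The potential of a point is at most (number of lines through it) times (largest weight). -/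
lemma phi_le {c W : ℝ} (hW : 0 ≤ W) {E : Finset (Set (ℤ × ℤ))} {F S : Finset (ℤ × ℤ)}
    (hu : ∀ L ∈ E, u c F S L ≤ W) {A : ℕ} {v : ℤ × ℤ}
    (hA : open Classical in (E.filter (fun L => v ∈ L)).card ≤ A) : phi c E F S v ≤ A * W := by
  classical
  unfold phi
  rw [← sum_filter]
  calc _ ≤ (E.filter (fun L => v ∈ L)).card • W :=
        sum_le_card_nsmul _ _ _ fun L hL => hu L (mem_filter.mp hL).1
    _ = ((E.filter (fun L => v ∈ L)).card : ℝ) * W := nsmul_eq_mul _ _
    _ ≤ _ := mul_le_mul_of_nonneg_right (by exact_mod_cast hA) hW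

/-- A function which depends only on the set of lines through the point attains its maximum. -/
lemma exists_max {E : Finset (Set (ℤ × ℤ))} (w : Set (ℤ × ℤ) → ℝ) (occ : Finset (ℤ × ℤ)) :
    ∃ x, x ∉ occ ∧ ∀ y, y ∉ occ →
      (open Classical in ∑ L ∈ E, if y ∈ L then w L else 0)
        ≤ (open Classical in ∑ L ∈ E, if x ∈ L then w L else 0) := by
  classical
  set f : ℤ × ℤ → ℝ := fun v => ∑ L ∈ E, if v ∈ L then w L else 0 with hf
  have hfin : (Set.range f).Finite := by
    apply Set.Finite.subset (E.powerset.image (fun T => ∑ L ∈ T, w L)).finite_toSet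
    rintro _ ⟨v, rfl⟩
    rw [Finset.mem_coe]
    refine mem_image.mpr ⟨E.filter (fun L => v ∈ L), mem_powerset.mpr (filter_subset _ _), ?_⟩
    rw [hf, sum_filter]
  have hfin' : (f '' {v | v ∉ occ}).Finite := hfin.subset (Set.image_subset_range _ _)
  obtain ⟨q, hq⟩ := Infinite.exists_notMem_finset occ
  obtain ⟨x, hx, hmax⟩ := Set.exists_max_image (f '' {v | v ∉ occ}) id hfin' ⟨f q, q, hq, rfl⟩
  obtain ⟨x0, hx0, rfl⟩ := hx
  exact ⟨x0, hx0, fun y hy => hmax (f y) ⟨y, hy, rfl⟩⟩

end Pool.Agent.H89.KapG
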